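import Pool.Agent.Helper87.HQ.St

/-!
# Project HQ, module C9: negative eigenvalues
-/

set_option autoImplicit false

namespace Pool.Agent.Helper94.HQ

open Pool.Agent.Helper87.HQ Set Real

lemma const_deriv {ℓ : ℝ} (hℓ : 0 < ℓ) {P : ℝ → ℝ}
    (h : ∀ x ∈ Icc (0 : ℝ) ℓ, HasDerivWithinAt P 0 (Icc (0 : ℝ) ℓ) x) :
    ∀ x ∈ Icc (0 : ℝ) ℓ, P x = P 0 := by
  apply constant_of_derivWithin_zero
  · intro x hx
    exact (h x hx).differentiableWithinAt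
  · intro x hx
    have hx' : x ∈ Icc (0 : ℝ) ℓ := Ico_subset_Icc_self hx
    exact (h x hx').derivWithin (uniqueDiffOn_Icc hℓ x hx')

/-- The solution of `f'' = κ² f` with `f'(x₀) = 0`. -/
lemma ode_c {f g : ℝ → ℝ} {κ ℓ x₀ : ℝ} (hκ : κ ≠ 0) (hℓ : 0 < ℓ) (hx₀ : x₀ ∈ Icc (0 : ℝ) ℓ)
    (h0 : g x₀ = 0)
    (hf : ∀ x ∈ Icc (0 : ℝ) ℓ, HasDerivWithinAt f (g x) (Icc (0 : ℝ) ℓ) x)
    (hg : ∀ x ∈ Icc (0 : ℝ) ℓ, HasDerivWithinAt g (κ ^ 2 * f x) (Icc (0 : ℝ) ℓ) x) :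
    ∀ x ∈ Icc (0 : ℝ) ℓ, f x = f x₀ * cosh (κ * (x - x₀)) := by
  have hl : ∀ x, HasDerivAt (fun x : ℝ => κ * (x - x₀)) κ x := by
    intro x
    simpa using ((hasDerivAt_id x).sub_const x₀).const_mul κ
  have hc : ∀ x, HasDerivAt (fun x : ℝ => cosh (κ * (x - x₀))) (κ * sinh (κ * (x - x₀))) x := by
    intro x
    have h2 := (hl x).cosh
    rwa [mul_comm] at h2
  have hs : ∀ x, HasDerivAt (fun x : ℝ => sinh (κ * (x - x₀))) (κ * cosh (κ * (x - x₀))) x := by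
    intro x
    have h2 := (hl x).sinh
    rwa [mul_comm] at h2
  have hP := const_deriv hℓ (P := fun x => κ * f x * cosh (κ * (x - x₀)) -
      g x * sinh (κ * (x - x₀))) (by
    intro x hx
    have h1 := (((hf x hx).const_mul κ).mul (hc x).hasDerivWithinAt).sub
      ((hg x hx).mul (hs x).hasDerivWithinAt)
    refine h1.congr_deriv ?_
    ring)
  have hQ := const_deriv hℓ (P := fun x => g x * cosh (κ * (x - x₀)) -
      κ * f x * sinh (κ * (x - x₀))) (by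
    intro x hx
    have h1 := ((hg x hx).mul (hc x).hasDerivWithinAt).sub
      (((hf x hx).const_mul κ).mul (hs x).hasDerivWithinAt)
    refine h1.congr_deriv ?_
    ring)
  intro x hx
  have e1 := (hP x hx).trans (hP x₀ hx₀).symm
  have e2 := (hQ x hx).trans (hQ x₀ hx₀).symm
  simp only [sub_self, mul_zero, cosh_zero, sinh_zero, mul_one, sub_zero, h0] at e1 e2
  have e3 := Real.cosh_sq_sub_sinh_sq (κ * (x - x₀))
  have e4 : κ * f x = κ * (f x₀ * cosh (κ * (x - x₀))) := by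
    linear_combination cosh (κ * (x - x₀)) * e1 + sinh (κ * (x - x₀)) * e2 - κ * f x * e3
  exact mul_left_cancel₀ hκ e4

lemma onEdge_int {G : MetricGraph} (F : G.Pt → ℝ) (e : G.E) {x : ℝ}
    (h : x ∈ Ioo (0 : ℝ) (G.len e)) : G.onEdge F e x = F (Sum.inr ⟨e, ⟨x, h⟩⟩) := by
  unfold MetricGraph.onEdge
  rw [dif_pos h]

/-- The function near an interior maximum. -/
lemma formula {G : MetricGraph} {α : G.V → ℝ} {κ : ℝ} (hκ : 0 < κ) {F : G.Pt → ℝ}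
    (hF : F ∈ G.eigenspace α (-κ ^ 2)) {e : G.E} {x : ℝ} (hx : x ∈ Ioo (0 : ℝ) (G.len e))
    (hmax : ∀ y, F y ≤ F (Sum.inr ⟨e, ⟨x, hx⟩⟩)) {y : ℝ} (hy : y ∈ Ioo (0 : ℝ) (G.len e)) :
    F (Sum.inr ⟨e, ⟨y, hy⟩⟩) = F (Sum.inr ⟨e, ⟨x, hx⟩⟩) * cosh (κ * (y - x)) := by
  obtain ⟨D, h1, -⟩ := hF
  have hℓ := G.len_pos e
  have hx' : x ∈ Icc (0 : ℝ) (G.len e) := Ioo_subset_Icc_self hx
  have hD : D e x = 0 := by
    have hd : HasDerivAt (G.onEdge F e) (D e x) x :=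
      (h1 e x hx').1.hasDerivAt (Icc_mem_nhds hx.1 hx.2)
    have hloc : IsLocalMax (G.onEdge F e) x := by
      filter_upwards [Ioo_mem_nhds hx.1 hx.2] with z hz
      rw [onEdge_int F e hz, onEdge_int F e hx]
      exact hmax _
    exact hloc.hasDerivAt_eq_zero hd
  have key := ode_c hκ.ne' hℓ hx' hD (fun z hz => (h1 e z hz).1)
    (fun z hz => by
      have := (h1 e z hz).2
      rwa [neg_neg] at this) y (Ioo_subset_Icc_self hy)
  rwa [onEdge_int F e hy, onEdge_int F e hx] at key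

theorem hC9 : StC9 := by
  intro h8 G α κ e hG hκ hinf
  have hℓ := G.len_pos e
  by_cases hz : ∃ (x : ℝ) (h : x ∈ Ioo (0 : ℝ) (G.len e)), ∃ F ∈ G.eigenspace α (-κ ^ 2),
      F ≠ 0 ∧ (∀ y, F y ≤ F (Sum.inr ⟨e, ⟨x, h⟩⟩)) ∧ F (Sum.inr ⟨e, ⟨x, h⟩⟩) = 0
  · obtain ⟨x, hx, F, hF, hne, hmax, h0⟩ := hz
    refine ⟨0, G.len e, hℓ, ?_⟩
    intro y hy
    refine ⟨hy, F, hF, hne, ?_⟩
    have := formula hκ hF hx hmax hy
    rw [h0, zero_mul] at this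
    intro z
    rw [this, ← h0]
    exact hmax z
  · exfalso
    obtain ⟨x₁, h₁, x₂, h₂, hne⟩ := hinf.nontrivial
    have neg : ∀ {x : ℝ} (h : x ∈ Ioo (0 : ℝ) (G.len e)) {F : G.Pt → ℝ},
        F ∈ G.eigenspace α (-κ ^ 2) → F ≠ 0 → (∀ y, F y ≤ F (Sum.inr ⟨e, ⟨x, h⟩⟩)) →
        F (Sum.inr ⟨e, ⟨x, h⟩⟩) < 0 := by
      intro x h F hF hn hmax
      rcases lt_trichotomy (F (Sum.inr ⟨e, ⟨x, h⟩⟩)) 0 with h0 | h0 | h0
      · exact h0
      · exact absurd ⟨x, h, F, hF, hn, hmax, h0⟩ hz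
      · exfalso
        have hy : x / 2 ∈ Ioo (0 : ℝ) (G.len e) := ⟨by linarith [h.1], by linarith [h.1, h.2]⟩
        have e1 := formula hκ hF h hmax hy
        have e2 := hmax (Sum.inr ⟨e, ⟨x / 2, hy⟩⟩)
        have e3 : 1 < cosh (κ * (x / 2 - x)) := by
          rw [Real.one_lt_cosh]
          have : x / 2 - x ≠ 0 := by linarith [h.1]
          exact mul_ne_zero hκ.ne' this
        rw [e1] at e2
        nlinarith
    obtain ⟨h₁, F₁, hF₁, hn₁, hm₁⟩ := h₁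
    obtain ⟨h₂, F₂, hF₂, hn₂, hm₂⟩ := h₂
    have hneg₁ := neg h₁ hF₁ hn₁ hm₁
    have hneg₂ := neg h₂ hF₂ hn₂ hm₂
    obtain ⟨t, ht⟩ := h8 G α κ hG hκ (-F₁) (Submodule.neg_mem _ hF₁) (-F₂)
      (Submodule.neg_mem _ hF₂)
      (fun y => by
        have := hm₁ y
        simp only [Pi.neg_apply]
        linarith)
      (fun y => by
        have := hm₂ y
        simp only [Pi.neg_apply]
        linarith)
    have a1 := formula hκ hF₁ h₁ hm₁ h₂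
    have a2 := formula hκ hF₂ h₂ hm₂ h₁
    have b1 := congrFun ht (Sum.inr ⟨e, ⟨x₁, h₁⟩⟩)
    have b2 := congrFun ht (Sum.inr ⟨e, ⟨x₂, h₂⟩⟩)
    simp only [Pi.neg_apply, Pi.smul_apply, smul_eq_mul] at b1 b2
    have hc : cosh (κ * (x₂ - x₁)) = cosh (κ * (x₁ - x₂)) := by
      rw [← Real.cosh_neg]
      congr 1
      ring
    rw [hc] at a1
    have hC : 1 < cosh (κ * (x₁ - x₂)) := by
      rw [Real.one_lt_cosh]
      exact mul_ne_zero hκ.ne' (sub_ne_zero.2 hne)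
    set C := cosh (κ * (x₁ - x₂)) with hCdef
    set m₁ := F₁ (Sum.inr ⟨e, ⟨x₁, h₁⟩⟩) with hm₁'
    set m₂ := F₂ (Sum.inr ⟨e, ⟨x₂, h₂⟩⟩) with hm₂'
    rw [a2] at b1
    rw [a1] at b2
    -- b1 : -m₁ = t * -(m₂ * C), b2 : -(m₁ * C) = t * -m₂
    have k : m₁ * (C ^ 2 - 1) = 0 := by
      linear_combination b1 - C * b2
    rcases mul_eq_zero.1 k with h | h
    · exact hneg₁.ne h
    · nlinarith

end Pool.Agent.Helper94.HQ
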